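import Pool.Agent.Q26.VH.Main

/-!
# A numerical criterion for the noncommutative variational Hodge conjecture

`C₀` is a `ℚ`-linear symmetric monoidal category in which the endomorphisms of the unit are rational
(e.g. `NChow(ℂ)_ℚ`) and `R₀` a symmetric monoidal functor to super vector spaces (e.g. `K^top` with
rational coefficients), `R` the same over the algebraic closure of the function field of the base `S`.
`M` is the geometric generic fibre of a family of admissible subcategories over `S`, `F t` is the fibre over
the point `t`, and `B` is a smooth proper compactification of the family (after a generically finite base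
change). Let `o` be a point for which homological and numerical equivalence agree on `K_0(F o)` (this is
known e.g. for admissible subcategories of the perfect complexes on abelian varieties, by the theorem of
Lieberman).

1. Let `v` be a flat class whose value at `o` is the class of `y ∈ K_0(F o)`. Then `v` is algebraic on
the geometric generic fibre if and only if `y` is numerically equivalent to the restriction of an
element of `K_0(B)`, if and only if `y` is orthogonal to all elements of `K_0(F o)` whose images in
`K_0(B)` are numerically trivial.
2. The noncommutative variational Hodge conjecture holds for the family and the point `o` if and only if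
the rank of the matrix of the Euler characteristics `χ(z|_o, c)`, `z ∈ K_0(B)`, `c ∈ K_0(F o)`, is the
dimension modulo numerical equivalence of the space of the elements of `K_0(F o)` with flat classes.
3. It holds if the elements of `K_0(B)` which are images of elements of `K_0(F o)` and numerically
trivial are homologically trivial.
-/

open CategoryTheory MonoidalCategory

universe v u w

namespace Pool.Agent.Results.MP_298761_ag.NumericalCriterion

open Pool.Agent.Q26.VH Pool.Agent.Y112.SR

variable {C : Type u} [Category.{v} C] [Preadditive C] [Linear ℚ C] [MonoidalCategory C]
  [SymmetricCategory C]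
  {C₀ : Type u} [Category.{v} C₀] [Preadditive C₀] [Linear ℚ C₀] [MonoidalCategory C₀]
  [SymmetricCategory C₀] {K : Type w} [Field K] {K₀ : Type w} [Field K₀]

/-- **A numerical criterion for the noncommutative variational Hodge conjecture.** -/
theorem result (hC₀ : RationalUnit C₀) (R : SuperRealisation C K) (R₀ : SuperRealisation C₀ K₀)
    (M : C) (T : Type) (F : T → C₀) (B : C₀) (S : Fam R R₀ M F B) (o : T) :
    (VHC S o → ∀ v, S.IsFlat v → IsAlg R₀ (F o) (S.e o v) → ∀ t, IsAlg R₀ (F t) (S.e t v)) ∧
    matRank (restrictions S o) ≤ matRank (flatAlg S o) ∧
    (HomEqNum R₀ (F o) →
      (∀ v y, S.IsFlat v → S.e o v = cl R₀ y →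
        [IsAlg R M v, Extends S o y, Orthogonal S o y].TFAE) ∧
      (VHC S o ↔ matRank (restrictions S o) = matRank (flatAlg S o)) ∧
      (HomEqNumIn S o → VHC S o)) :=
  ⟨fun h v hv ha t => S.specializes v (h v hv ha) t, rank_le hC₀ S o, fun hD =>
    ⟨fun _ _ hv hy => criterion hC₀ S o hD hv hy, vhc_iff_rank hC₀ S o hD,
      vhc_of_homEqNum hC₀ S o hD⟩⟩

end Pool.Agent.Results.MP_298761_ag.NumericalCriterion
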