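import Pool.Agent.Q60.NV.Main

/-!
# The noncommutative variational Hodge conjecture for families from abelian varieties of prime dimension

Let `f : X → S` be a smooth proper morphism of complex varieties, `C` an `S`-linear admissible
subcategory of `D^perf(X)`. Suppose that the noncommutative motives of the fibres `C_s`, for `s` outside a
thin set (a countable union of closed subvarieties different from `S`), are direct summands of sums of
motives of plain abelian varieties (up to homological equivalence). Here an abelian variety is
plain (`IsPlain`) if it is isogenous to a product of abelian varieties without complex
multiplication, in any number and with any multiplicities, each of which is simple of dimension at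
most three, or simple of prime dimension (the larger one of the two multiplicities of each imaginary
quadratic field in the endomorphism algebra being two or three), or of unitary type with small
multiplicities, or a fourfold of Weil type, or of real type of odd relative dimension or of
relative dimension two.

(1) The noncommutative variational Hodge conjecture holds for `C`. Even the flat sections which are
Hodge classes at one point are algebraic at all points.

(2) If all flat sections are Hodge classes (for instance if the algebraic monodromy group is the
derived group of the generic Mumford-Tate group, and the centre of the latter consists of homotheties),
then the noncommutative variational Hodge conjecture for any other family `C' / S'` implies the same for the exterior product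
`C' ⊠ C` over `S' × S`; in particular it holds for the products `Z ⊠ C` with all fixed `Z`.

Examples: relative Jacobians, families of curves, of cubic threefolds, of moduli spaces of bundles on
curves, whose very general member has a simple Jacobian of prime dimension, and all their relative
powers; the special members are arbitrary.
-/

namespace Pool.Agent.Results.MP_298761_ag.PrimeDimensionFamilies

open Pool.Agent.Q60.NH Pool.Agent.Q60.NV

theorem result (T : NCData) (hT : T.Facts) (F : Family T) (Thin : Set F.S → Prop)
    (hF : F.Facts Thin) (hp : Thin {s | ¬ FromPlain T (F.fibre s)}) :
    F.NCVHC ∧
    (∀ (φ : F.Sec) (o : F.S), F.val o φ ∈ T.Hodge (F.fibre o) →
      ∀ s, F.val s φ ∈ T.Alg (F.fibre s)) ∧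
    ∀ P : Products T, P.Facts → F.AllHodge P → ∀ F' : Family T, F'.NCVHC →
      (P.family F' F).NCVHC :=
  main hT hF hp

end Pool.Agent.Results.MP_298761_ag.PrimeDimensionFamilies
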