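import Pool.Agent.Results.MP_e9c0f3_ag.CoversTimesFamilies

/-!
# The noncommutative variational Hodge conjecture for `𝒞 ⊠ D_perf (C ^ n)`, `𝒞` ANY family

Let `S` be a variety and `𝒞` an ARBITRARY `S`-linear admissible subcategory of `D_perf (Z)`, `Z → S` smooth and
proper. Let `C → S` be a family of curves, which are Galois covers, with the group `G`, of smooth
projective curves `Q_t` of genus `g ≥ 0`, ramified only over some points `a_1 (t), ..., a_r (t)`, with
ramification indices which divide `N` (or finitely many such families). We study the noncommutative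
variational Hodge conjecture for the exterior product `𝒞 ⊠ D_perf (C × ... × C)` (fibre products over `S`), an
admissible subcategory of `D_perf (Z × C × ... × C)`. No variational Hodge conjecture for `Z` is needed, only the
one for `𝒞`.

**Topological K-theory.** `K^top (𝒞_t ⊠ D_perf (C_t ^ n)) = K^top (𝒞_t) ⊗ K^top (C_t) ^ {⊗ n}` (rationally), and
`K^top (C_t)` is the sum of `H ^ 0`, `H ^ 2`, which are spanned by algebraic flat classes, and of `H ^ 1`; the
projections are given by algebraic kernels. So we study the summands `W ⊗ H ^ {⊗ s}`, `W = K^top_0 ⊕ K^top_1` of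
`𝒞_t`, transported to a base point, with coefficients in `ℂ`, and `H = H ^ 1 (C_t) = ⊕ V_i`, as in
`MP_e9c0f3_ag.CoversTimesFamilies`, which describes the local systems `L_i` and their
invariants (`LocalSystems`), the group `D` (`InD`), the monodromy `ρ γ` on `W`, the flat classes (`IsFlat`) and the
products `b` of pairings and determinants of the `V_i` (`prodOf`), and cites the theorems on the monodromy
of covers and on the algebraicity of the determinants.

**Algebraic classes** (`AlgebraicClasses`). `alg t` is the span in `W` of the algebraic classes, the image of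
`K_0 (𝒞_t)`; `algX s t` is the span of the algebraic classes in `W ⊗ H ^ {⊗ s}`, the image of
`K_0 (𝒞_t ⊠ D_perf (C_t ^ n))`. Only two facts are used, for the algebraic products `b`: exterior products `b ⊗ z` of
`b` and algebraic classes `z` are algebraic, and the contraction of an algebraic class with `b` is
algebraic: the contraction is the map given by an algebraic kernel
`𝒞_t ⊠ D_perf (C_t ^ n) → 𝒞_t`.

**The theorem.** (1) Suppose that the exponents of all local systems form pairs (`Balanced`), for
instance if the covers are unramified or if all local monodromies are conjugate to their inverses. Then the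
noncommutative variational Hodge conjecture for `𝒞` implies the one for all `𝒞 ⊠ D_perf (C ^ n)`. (2) The
same, if `K^top (𝒞)` contains no nontrivial Hodge structures of CM type (`NoCM`) and the covers are `Tame`.
(3) Under the conditions of (2), if all flat Hodge classes of `𝒞` are algebraic at all points, then so are
all flat Hodge classes of `𝒞 ⊠ D_perf (C ^ n)`.

`K^top_0` has weight zero, so that the Hodge classes of `𝒞_t` are the elements of `F u 0` for all
embeddings `u`, and the Hodge classes in `W ⊗ H ^ {⊗ s}` are those of `HodgeType F (s / 2)` (the twist by `s / 2`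
makes the weight zero; for odd `s` the factor `W` stands for `K^top_1`, with half-integral types).
-/

namespace Pool.Agent.Results.MP_298761_ag.TimesCoversOfCurves

open Pool.Agent.Q59.GC Pool.Agent.Q59.VZ Pool.Agent.Q59.IB
open Pool.Agent.Results.MP_e9c0f3_ag.CoversTimesFamilies (IsAlgebraic NoCM IsFlat ContractsInto HodgeType)

/-- The spaces of algebraic classes of `𝒞_t` and of `𝒞_t ⊠ D_perf (C_t ^ n)` at the points `t`, with the two facts which are
used, for the products `b = prodOf ε μ ν e` of pairings and determinants whose exponents satisfy `P`. -/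
structure AlgebraicClasses {N : ℕ} {I : Type} [Fintype I] [DecidableEq I] (S : LocalSystems N I)
    (ε : Letter S.labels → ℂ) {W : Type} [AddCommGroup W] [Module ℂ W] {Γ : Type}
    (ρ : Γ → W →ₗ[ℂ] W) (P : Multiset (ZMod N) → Prop) (T : Type) where
  /-- algebraic classes of `𝒞_t` -/
  alg : T → Submodule ℂ W
  /-- algebraic classes of `𝒞_t ⊠ D_perf (C_t ^ n)` with `s` letters -/
  algX : (s : ℕ) → T → Submodule ℂ ((Fin s → Letter S.labels) → W)
  contract_mem : ∀ (s : ℕ) (t : T) (x : (Fin s → Letter S.labels) → W), IsFlat ε ρ x → x ∈ algX s t →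
    ∀ (l p : ℕ) (μ : Fin l → I) (ν : Fin p → I)
      (e : (Σ j : Fin l, Fin (S.labels.dim (μ j))) ⊕ (Fin p × Fin 2) ≃ Fin s),
      P (exAll S.labels μ) → contract (prodOf ε μ ν e) x ∈ alg t
  product_mem : ∀ (s : ℕ) (t : T) (z : W), (∀ γ, ρ γ z = z) → z ∈ alg t →
    ∀ (l p : ℕ) (μ : Fin l → I) (ν : Fin p → I)
      (e : (Σ j : Fin l, Fin (S.labels.dim (μ j))) ⊕ (Fin p × Fin 2) ≃ Fin s),
      P (exAll S.labels μ) → (fun w => prodOf ε μ ν e w • z) ∈ algX s t

section

variable {N : ℕ} {I : Type} [Fintype I] [DecidableEq I] {S : LocalSystems N I}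
  {ε : Letter S.labels → ℂ} {W : Type} [AddCommGroup W] [Module ℂ W] {Γ : Type}
  {ρ : Γ → W →ₗ[ℂ] W} {P : Multiset (ZMod N) → Prop} {T : Type}

/-- The noncommutative variational Hodge conjecture for `𝒞`: flat classes which are algebraic at one point are
algebraic at all points. -/
def NCVHC (K : AlgebraicClasses S ε ρ P T) : Prop :=
  ∀ z, (∀ γ, ρ γ z = z) → ∀ o t, z ∈ K.alg o → z ∈ K.alg t

/-- The noncommutative variational Hodge conjecture for `𝒞 ⊠ D_perf (C ^ n)`, in the part with `s` letters. -/
def NCVHCProduct (K : AlgebraicClasses S ε ρ P T) (s : ℕ) : Prop :=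
  ∀ x, IsFlat ε ρ x → ∀ o t, x ∈ K.algX s o → x ∈ K.algX s t

/-- Flat algebraic classes are Hodge classes. -/
def AreHodge (K : AlgebraicClasses S ε ρ P T) (F : (ZMod N)ˣ → ℚ → Submodule ℂ W) : Prop :=
  ∀ s x, IsFlat ε ρ x → ∀ o, x ∈ K.algX s o → HodgeType F (s / 2) x

end

/-- **The noncommutative variational Hodge conjecture for the exterior products of an arbitrary family of
categories with powers of families of covers of curves.** -/
theorem result (N : ℕ) [NeZero N] (I : Type) [Fintype I] [DecidableEq I] (S : LocalSystems N I)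
    (ε : Letter S.labels → ℂ) (hε : ∀ x : Letter S.labels, ¬ S.alt x.1 = true → ε (dual x) = -ε x)
    (hε1 : ∀ x, ε x = 1 ∨ ε x = -1) (W : Type) [AddCommGroup W] [Module ℂ W]
    (Γ : Type) (ρ : Γ → W →ₗ[ℂ] W) (T : Type) :
    ((∀ i, Balanced (S.ex i)) → ∀ K : AlgebraicClasses S ε ρ Balanced T, NCVHC K →
      ∀ s, NCVHCProduct K s) ∧
    ∀ F : (ZMod N)ˣ → ℚ → Submodule ℂ W, NoCM F → ∀ K : AlgebraicClasses S ε ρ IsAlgebraic T,
      ∀ s, Tame S s →
      (AreHodge K F → NCVHC K → NCVHCProduct K s) ∧
      ((∀ z, (∀ γ, ρ γ z = z) → (∀ u, z ∈ F u 0) → ∀ t, z ∈ K.alg t) →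
        ∀ x, IsFlat ε ρ x → HodgeType F (s / 2) x → ∀ t, x ∈ K.algX s t) := by
  refine ⟨fun hbal K hK s x hx o t hxo => ?_, fun F hNo K s hT => ⟨fun hH hK x hx o t hxo => ?_,
    fun hK x hx hxF t => ?_⟩⟩
  · have h := (Pool.Agent.Results.MP_e9c0f3_ag.CoversTimesFamilies.result N I S ε hε hε1 W Γ ρ (K.alg o) s x
      hx).1 hbal fun l p μ ν e hP => K.contract_mem s o x hx hxo l p μ ν e hP
    refine (Submodule.span_le.2 ?_) h
    rintro y ⟨l, p, μ, ν, e, z, ⟨h1, h2, h3⟩, rfl⟩
    exact K.product_mem s t z h3 (hK z h3 o t h2) l p μ ν e h1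
  · have h := (Pool.Agent.Results.MP_e9c0f3_ag.CoversTimesFamilies.result N I S ε hε hε1 W Γ ρ (K.alg o) s x
      hx).2 F (s / 2) hNo (hH s x hx o hxo) hT fun l p μ ν e hP => K.contract_mem s o x hx hxo l p μ ν e hP
    refine (Submodule.span_le.2 ?_) h
    rintro y ⟨l, p, μ, ν, e, z, ⟨h1, h2, h3, -⟩, rfl⟩
    exact K.product_mem s t z h3 (hK z h3 o t h2) l p μ ν e h1
  · have h := (Pool.Agent.Results.MP_e9c0f3_ag.CoversTimesFamilies.result N I S ε hε hε1 W Γ ρ ⊤ s x
      hx).2 F (s / 2) hNo hxF hT fun l p μ ν e _ => Submodule.mem_top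
    refine (Submodule.span_le.2 ?_) h
    rintro y ⟨l, p, μ, ν, e, z, ⟨h1, -, h3, h4⟩, rfl⟩
    refine K.product_mem s t z h3 (hK z h3 (fun u => ?_) t) l p μ ν e h1
    have h5 := h4 u
    rwa [sub_self] at h5

end Pool.Agent.Results.MP_298761_ag.TimesCoversOfCurves
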