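import Mathlib
import Pool.Agent.Q43.GH.Cas
import Pool.Agent.Q43.GM.Prod
import Pool.Agent.Q43.GN.Sub
import Pool.Agent.Q43.VH.Main
import Pool.Agent.TH170.TT.Small
import Pool.Agent.Y91.PS.Point
import Pool.Agent.TH504.CB.PeriodDefs

/-!
# The noncommutative variational Hodge conjecture for abelian schemes times families with small Hodge numbers

Let `A → S` be an abelian scheme and `Y → S` a smooth projective family. Suppose that at ONE point `t`
of `S`, such that the divisor classes on `A_t` remain divisor classes on all fibres (for instance a very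
general point), the abelian variety `A_t` is a product (with repetitions) of abelian varieties `A_i`
such that the centres of the endomorphism algebras are totally real and each `A_i` satisfies one of the
following conditions.

* **Small rank** (`HasSmallRank`). It is simple and the complexified Lie algebra of the Hodge group
  contains a nonzero matrix of rank at most two. This is so for all simple abelian varieties of
  types I and II whose Hodge group is as large as possible: for instance if `End A_i = ℤ` and
  `dim A_i` is odd, or if `dim A_i` is prime; or if the family degenerates to a torus of rank one.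
* **One specialization of CM type** (`HasCMSpecialization`). The rational homology can be identified
  with that of a product of abelian varieties of CM types `(E i, Φ i)` such that all Hodge tensors
  are Hodge tensors of the product (for instance a fibre `A_s` of CM type), and there are only trivial
  relations of length four between the embeddings of the `E i` with respect to the `Φ i`.

Suppose moreover that `Y_t` has one of the following properties.

* **Small Hodge numbers** (`HasSmallHodgeNumbers`): for some `r ≥ 3` the `A_i` have relative dimension at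
  least `r` (`HasRelativeDimension`; for `End A_i = ℤ` this means `dim A_i ≥ r`), and `h ^ (p, q) < r`
  for all `p ≠ q`. More generally it is sufficient that the cohomology of `Y_t` is contained in a
  representation of the product of the groups `GL (W_d)` for polarized Hodge structures `W_d`, each of
  which is of CM type or has Hodge numbers less than `r` for `p ≠ q`.
* `Y_t` is of CM type (`IsOfCMType`).

Nothing is assumed about the other fibres: the `A_s` can be arbitrary, and the variation of `Y` need not
be related to that of `A`. Then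

1. each flat class on `A ×_S Y` which is a Hodge class on all fibres is a sum of products `f ⊗ x`, where
   `f` is on all `A_s` a combination of products of divisor classes and `x` is a Hodge class on
   all `Y_s`;
2. the variational Hodge conjecture for `Y → S` implies the noncommutative variational Hodge conjecture
   for all `S`-linear admissible subcategories of `D_perf (A ×_S Y)` (in particular the classical one
   for `A ×_S Y`).

For instance, let the very general fibre of `A` be a product of powers of abelian varieties `A_i` of odd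
dimension at least `g ≥ 3` with `End A_i = ℤ`, and let `Y` be any family of surfaces with geometric genus and
irregularity less than `g` (for instance K3 surfaces, abelian surfaces), or of threefolds with
`h ^ (p, q) < g` for `p ≠ q`: then the noncommutative variational Hodge conjecture holds for all
admissible subcategories of `D_perf (A ×_S Y)`, since the Hodge conjecture is known for the fibres of `Y`.
If `S` is a point, part 1 shows that the Hodge conjecture for `Y` implies the Hodge conjecture
for `A × Y`.

The notation (starting files): `B` is the universal covering of `S`; the homology of the fibres of `A` is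
trivialized: it is a rational space `W` with the inclusion `per b` in the tangent space of `A_b` for every
`b`; the cohomology `ℚ ^ v` of the fibres of `Y` is trivialized, the Hodge structure of `Y_b` is given by its
Hodge operator `(Y b).z` (multiplication by `p - q` on `H ^ (p, q)`). Flat classes on `A ×_B Y` are the
elements of `⨁ k, H^k(A) ⊗ H(Y) = HAZ W v`. The topological K-theory `K_0^top` of the fibres with
rational coefficients is a direct summand (the even part), and its Hodge classes are those killed by the
Hodge operator. By the theorem of the fixed part (known), a global section which is algebraic at one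
point is a Hodge class at all points. Of algebraic cycles only two properties are used, the fields of
`CycleSystem`: the product of a product of divisor classes on `A_b` and an algebraic class on `Y_b` is
algebraic, and `pr_*(F ∧ β)` is algebraic on `Y_b` for `F` algebraic on `A_b × Y_b` and a product `β` of
divisor classes on `A_b`. An admissible subcategory acts by its projection functor, a flat projection `P`
which preserves algebraic classes; the algebraic classes of the subcategory are the images of
the algebraic classes.

The proof. By the results for one fibre (`Q43.GM`, `Q43.GN`: the Lie algebra of the operators which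
preserve a sub-Hodge structure of `H(A_t) ⊗ H(Y_t)` would contain a symplectic Lie algebra `sp (2 p)`,
`p ≥ r`, acting on some `W_d`, and the Hodge operator would have an eigenspace of dimension at least `r`
with a nonzero eigenvalue) the Hodge structures of `A_t` and `Y_t` are independent; so the components of
a flat class on `A_t` are combinations of products of divisor classes, on `t` and hence on all fibres.
So its components on `Y_b` are Hodge classes for all `b`. They are obtained from the class by integration
against products of divisor classes on `A_b`.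
-/

set_option autoImplicit false

namespace Pool.Agent.Results.MP_298761_ag.TimesSmallHodgeNumbers

open Matrix Module NumberField TensorProduct Pool.Agent.H204R3.CM Pool.Agent.H204R3.GP
  Pool.Agent.W437.HC Pool.Agent.W437.HD Pool.Agent.W437.HP Pool.Agent.TH131.GHC
  Pool.Agent.H194R3.CM Pool.Agent.TH504.VY Pool.Agent.TH504.CB

/-- The rational matrix `φ` is an endomorphism (with rational coefficients) of the abelian variety
`ℂ ^ g / (ℤ ^ g + Z ℤ ^ g)`: its action on the rational homology comes from a complex linear map
`M` of the tangent space (`perOne Z` is the inclusion `(a, b) ↦ a + Z b`). -/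
def IsEndomorphism {g : ℕ} (Z : Matrix (Fin g) (Fin g) ℂ)
    (φ : Matrix (Fin g ⊕ Fin g) (Fin g ⊕ Fin g) ℚ) : Prop :=
  ∃ M : Matrix (Fin g) (Fin g) ℂ, ∀ w, perOne Z (φ.mulVec w) = M.mulVec (perOne Z w)

/-- The centre of the endomorphism algebra is totally real: an endomorphism which commutes with all
endomorphisms is symmetric for the principal polarization. -/
def HasRealCentre {g : ℕ} (Z : Matrix (Fin g) (Fin g) ℂ) : Prop :=
  ∀ φ, IsEndomorphism Z φ → (∀ ψ, IsEndomorphism Z ψ → φ * ψ = ψ * φ) →
    φ.transpose * fromBlocks 0 1 (-1) 0 = fromBlocks 0 1 (-1) 0 * φ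

/-- The matrix `X`, acting as a derivation, kills all rational tensors on the homology which are
killed by the Hodge operator `DZ Z = -i J` (the Hodge tensors), `J` the matrix of the complex
structure. -/
def KillsHodgeTensors {g : ℕ} (Z : Matrix (Fin g) (Fin g) ℂ)
    (X : Matrix (Fin g ⊕ Fin g) (Fin g ⊕ Fin g) ℂ) : Prop :=
  ∀ (n : ℕ) (c : (Fin n → Fin g ⊕ Fin g) → ℚ), act (DZ Z) (cst ℂ c) = 0 → act X (cst ℂ c) = 0

/-- The abelian variety is simple and some nonzero complex matrix of rank at most two kills all Hodge
tensors: it is an element of the complexified Lie algebra of the Hodge group. -/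
def HasSmallRank {g : ℕ} (Z : Matrix (Fin g) (Fin g) ℂ) : Prop :=
  IsSimpleAV Z ∧ ∃ X, X ≠ 0 ∧ X.rank ≤ 2 ∧ KillsHodgeTensors Z X

open Classical in
/-- There are only trivial relations of length at most four: if at most four embeddings, among which
there are no two conjugate ones, are given then some automorphism of the complex numbers moves them
such that the numbers of those inside and outside of the types are different. -/
def OnlyTrivialRelations {ι : Type} {E : ι → Type} [∀ i, Field (E i)]
    (Φ : ∀ i, Set (E i →+* ℂ)) : Prop :=
  ∀ n : ℕ, 2 ≤ n → n ≤ 4 → ∀ a : Fin n → Σ i, (E i →+* ℂ),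
    (∀ l l', a l ≠ (⟨(a l').1, ComplexEmbedding.conjugate (a l').2⟩ : Σ i, (E i →+* ℂ))) →
    ∃ σ : ℂ ≃+* ℂ, (∑ l, if (σ : ℂ →+* ℂ).comp (a l).2 ∈ Φ (a l).1 then (1 : ℤ) else -1) ≠ 0

/-- The rational homology of the abelian variety with period matrix `Z` can be identified with the
homology of a product of abelian varieties of CM types `(E i, Φ i)` with only trivial relations such
that all Hodge tensors are Hodge tensors of the product. -/
def HasCMSpecialization {g : ℕ} (Z : Matrix (Fin g) (Fin g) ℂ) : Prop :=
  ∃ (ι : Type) (_ : Fintype ι) (E : ι → Type) (_ : ∀ i, Field (E i)) (_ : ∀ i, NumberField (E i))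
    (_ : ∀ i, IsCMField (E i)) (Φ : ∀ i, Set (E i →+* ℂ))
    (u : (Fin g ⊕ Fin g → ℚ) ≃ₗ[ℚ] (∀ i, E i)), (∀ i, IsCMType (Φ i)) ∧ OnlyTrivialRelations Φ ∧
    ∀ (m : ℕ) (ψ : MultilinearMap ℚ (fun _ : Fin m × Fin 2 => (Fin g ⊕ Fin g → ℚ)) ℚ),
      IsHodgeTensor (perOne Z) ψ →
        IsHodgeTensor ((per Φ (fun i : ι => i)).comp u.toLinearMap.toAddMonoidHom) ψ

/-- The variety is of CM type: the Hodge operator of its cohomology commutes with all its conjugates
under the automorphisms of the complex numbers. -/
def IsOfCMType {v : ℕ} (V : Coh v) : Prop :=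
  ∀ σ : ℂ ≃+* ℂ, V.z * V.z.map σ = V.z.map σ * V.z

/-- The operators on the complex homology which are combinations of endomorphisms of the abelian
variety and are not zero have rank at least `2 r`: the simple factors `B` of the abelian variety
satisfy `dim B ≥ r [F : ℚ] d`, `F` the centre of the algebra of endomorphisms of `B`, of dimension
`d ^ 2` over `F`. -/
def HasRelativeDimension {g : ℕ} (Z : Matrix (Fin g) (Fin g) ℂ) (r : ℕ) : Prop :=
  ∀ M ∈ Submodule.span ℂ {M : Matrix (Fin g ⊕ Fin g) (Fin g ⊕ Fin g) ℂ |
    ∃ φ, IsEndomorphism Z φ ∧ M = φ.map (fun x : ℚ => (x : ℂ))}, M ≠ 0 → 2 * r ≤ M.rank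

/-- `Q` is a polarization of the Hodge structure `W` (a sum of Hodge structures of weights which need
not be mentioned): it is preserved by the Hodge operator `W.z`, and `i ^ (p - q) Q (x, x̄)` is
positive for all `x ≠ 0` of types `(p, q)` with `p - q = k`. -/
def IsPolarized {w : ℕ} (W : Coh w) (Q : Matrix (Fin w) (Fin w) ℚ) : Prop :=
  W.z.transpose * Q.map (fun x : ℚ => (x : ℂ)) + Q.map (fun x : ℚ => (x : ℂ)) * W.z = 0 ∧
  ∀ (k : ℤ) (x : Fin w → ℂ), x ≠ 0 → W.z.mulVec x = (k : ℂ) • x → ∃ t : ℝ, 0 < t ∧
    Complex.I ^ k * (x ⬝ᵥ (Q.map (fun x : ℚ => (x : ℂ))).mulVec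
      fun b => starRingEnd ℂ (x b)) = t

/-- The component with the label `d` of the graded Hodge structure `W` is of CM type: on this
component the Hodge operator commutes with all its conjugates under the automorphisms of the complex
numbers. -/
def IsCMComponent {w : ℕ} (W : Coh w) (d : ℕ) : Prop :=
  ∀ (σ : ℂ ≃+* ℂ) (a b : Fin w), W.dg a = d → (W.z * W.z.map σ) a b = (W.z.map σ * W.z) a b

/-- The Hodge numbers `h ^ (p, q)`, `p ≠ q`, of the component with the label `d` of the graded Hodge
structure `W` are less than `r`: the spaces of the elements `x` of this component with `W.z x = k x`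
have dimension less than `r` for all `k ≠ 0`. -/
def IsSmallComponent {w : ℕ} (W : Coh w) (r d : ℕ) : Prop :=
  ∀ (k : ℤ) (S : Submodule ℂ (Fin w → ℂ)), k ≠ 0 →
    (∀ x ∈ S, W.z.mulVec x = (k : ℂ) • x ∧ ∀ b, W.dg b ≠ d → x b = 0) → finrank ℂ S < r

/-- The Hodge structure `V` is a sub-Hodge structure (`j`) of a Hodge structure `U = ℚ ^ u` given by a
rational representation `φ` of the Lie algebra of all graded matrices, the endomorphisms of the
components `W_d` of a polarized Hodge structure `W`: the Hodge operator of `U` is the image of the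
Hodge operator of `W` under the complexification of `φ`. Each component `W_d` has small Hodge numbers
(`IsSmallComponent`, the numbers `h ^ (p, p)` are arbitrary) or is of CM type. (The grading `W.dg` can
be the degree or a finer one.) -/
def HasSmallHodgeNumbers {v : ℕ} (V : Coh v) (r : ℕ) : Prop :=
  ∃ (w u : ℕ) (W : Coh w) (Q : Matrix (Fin w) (Fin w) ℚ)
    (φ : Matrix (Fin w) (Fin w) ℚ →ₗ[ℚ] Matrix (Fin u) (Fin u) ℚ) (j : Matrix (Fin u) (Fin v) ℚ),
    IsPolarized W Q ∧
    (∀ M N : Matrix (Fin w) (Fin w) ℚ, (∀ b b', W.dg b ≠ W.dg b' → M b b' = 0) →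
      (∀ b b', W.dg b ≠ W.dg b' → N b b' = 0) → φ (M * N - N * M) = φ M * φ N - φ N * φ M) ∧
    (∀ x, j.mulVec x = 0 → x = 0) ∧
    (∑ a, ∑ b, W.z a b • (φ (Matrix.single a b 1)).map (fun x : ℚ => (x : ℂ))) *
      j.map (fun x : ℚ => (x : ℂ)) = j.map (fun x : ℚ => (x : ℂ)) * V.z ∧
    ∀ d, IsCMComponent W d ∨ IsSmallComponent W r d

theorem only_iff {ι : Type} {E : ι → Type} [∀ i, Field (E i)] (Φ : ∀ i, Set (E i →+* ℂ)) :
    OnlyTrivialRelations Φ ↔ Pool.Agent.TH170.LV.LevelFree Φ 4 0 := by
  constructor
  · intro h n hn B hB hn2 a ha
    obtain rfl : B = 0 := by omega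
    obtain ⟨σ, hσ⟩ := h n (by omega) hn a ha
    exact ⟨σ, by rw [Nat.cast_zero]; exact abs_pos.2 hσ⟩
  · intro h n hn2 hn a ha
    obtain ⟨σ, hσ⟩ := h n hn 0 le_rfl (by omega) a ha
    exact ⟨σ, abs_pos.1 (by rwa [Nat.cast_zero] at hσ)⟩

theorem exists_left {u v : ℕ} (j : Matrix (Fin u) (Fin v) ℚ) (hj : ∀ x, j.mulVec x = 0 → x = 0) :
    ∃ l : Matrix (Fin v) (Fin u) ℚ, l * j = 1 := by
  obtain ⟨f, hf⟩ := LinearMap.exists_leftInverse_of_injective (Matrix.toLin' j)
    (LinearMap.ker_eq_bot'.2 fun x hx => hj x hx)
  refine ⟨LinearMap.toMatrix' f, ?_⟩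
  have h1 := congrArg LinearMap.toMatrix' hf
  rwa [LinearMap.toMatrix'_comp, LinearMap.toMatrix'_toLin', LinearMap.toMatrix'_id] at h1

theorem isEndo_iff {g : ℕ} {Z : Matrix (Fin g) (Fin g) ℂ}
    (P : (Fin g ⊕ Fin g → ℚ) →ₗ[ℚ] (Fin g ⊕ Fin g → ℚ)) :
    IsHodgeEnd (perOne Z) P ↔ IsEndomorphism Z (LinearMap.toMatrix' P) := by
  constructor
  · rintro ⟨P', hP'⟩
    refine ⟨LinearMap.toMatrix' P', fun w => ?_⟩
    rw [← Matrix.toLin'_apply, Matrix.toLin'_toMatrix', ← Matrix.toLin'_apply,
      Matrix.toLin'_toMatrix']
    exact (hP' w).symm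
  · rintro ⟨M, hM⟩
    refine ⟨Matrix.toLin' M, fun w => ?_⟩
    have h1 := hM w
    rw [← Matrix.toLin'_apply, Matrix.toLin'_toMatrix'] at h1
    rw [Matrix.toLin'_apply, h1]

theorem realC_of {g : ℕ} {Z : Matrix (Fin g) (Fin g) ℂ} (hZ : Z.transpose = Z)
    (hpos : (Z.map Complex.im).PosDef) (hc : HasRealCentre Z) :
    Pool.Agent.Q43.GH.RealC (perOne Z) := by
  intro P hP hcomm z hz
  have h1 : ∀ ψ, IsEndomorphism Z ψ →
      LinearMap.toMatrix' P * ψ = ψ * LinearMap.toMatrix' P := by
    intro ψ hψ
    have h2 := hcomm (Matrix.toLin' ψ) ((isEndo_iff _).2 (by rwa [LinearMap.toMatrix'_toLin']))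
    have h3 := congrArg LinearMap.toMatrix' h2
    rwa [LinearMap.toMatrix'_comp, LinearMap.toMatrix'_comp, LinearMap.toMatrix'_toLin'] at h3
  obtain ⟨M, hM⟩ := (isEndo_iff P).1 hP
  have h4 := Pool.Agent.W437.HQ.endo_comm (hpos.isUnit.map Matrix.detMonoidHom) hM
  refine Pool.Agent.Q43.GN.real_of_symm hZ hpos h4 (hc _ ⟨M, hM⟩ h1) ?_
  rwa [Matrix.toLin'_toMatrix']

/-- Each divisor class of the fibre of the family of complex tori over `t` is a divisor class on all
fibres. -/
def IsGenericPoint {B W T : Type} [AddCommGroup W] [Module ℚ W] [AddCommGroup T] [Module ℂ T]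
    (per : B → W →+ T) (t : B) : Prop :=
  ∀ C : W [⋀^Fin 2]→ₗ[ℚ] ℚ, IsHodge (per t) C → ∀ b, IsHodge (per b) C

/-- The noncommutative variational Hodge conjecture: let `P` be the action of the projection functor of
an admissible subcategory on the flat classes, a projection which preserves the algebraic classes of all
members; a flat class `x` in the image of `P` which is a Hodge class on all members and is the image of
an algebraic class of one member is the image of algebraic classes of all members. -/
def NCVariational {B M : Type} [AddCommGroup M] [Module ℚ M] (hodge : B → M → Prop)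
    (alg : B → Submodule ℚ M) : Prop :=
  ∀ P : M →ₗ[ℚ] M, (∀ x, P (P x) = P x) → (∀ b, ∀ x ∈ alg b, P x ∈ alg b) →
    ∀ x, P x = x → (∀ b, hodge b x) → ∀ b₀, (∃ y ∈ alg b₀, P y = x) → ∀ b, ∃ y ∈ alg b, P y = x

/-- The conditions for the product of the abelian varieties with the period matrices `Z i` and the
variety with the cohomology `V`: the centres of the endomorphism algebras are totally real, each `Z i`
satisfies `HasSmallRank` or `HasCMSpecialization`, and either for some `r ≥ 3` all `Z i` have relative
dimension at least `r` and `V` has small Hodge numbers, or `V` is of CM type. -/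
def IsGoodPair {n v : ℕ} {d : Fin n → ℕ} (Z : ∀ i, Matrix (Fin (d i)) (Fin (d i)) ℂ)
    (V : Coh v) : Prop :=
  (∀ i, HasRealCentre (Z i)) ∧ (∀ i, HasSmallRank (Z i) ∨ HasCMSpecialization (Z i)) ∧
  ((∃ r, 3 ≤ r ∧ (∀ i, HasRelativeDimension (Z i) r) ∧ HasSmallHodgeNumbers V r) ∨ IsOfCMType V)

theorem isFree_of {n v : ℕ} {d : Fin n → ℕ} {Z : ∀ i, Matrix (Fin (d i)) (Fin (d i)) ℂ} {V : Coh v}
    (hper : ∀ i, (Z i).transpose = Z i ∧ ((Z i).map Complex.im).PosDef) (hgood : IsGoodPair Z V) :
    Pool.Agent.Y91.PS.IsFree Z V := by
  obtain ⟨hr, hcase, hV⟩ := hgood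
  have hp : ∀ i, Pool.Agent.W437.HR.HasPcs (DZ (Z i)) := by
    intro i
    rcases hcase i with ⟨hs, X, hX0, hXr, hX⟩ | ⟨ι, _, E, _, _, _, Φ, u, hΦ, hlf, hsp⟩
    · refine Pool.Agent.TH125.hasPcs_of_rank (hper i).1 (hper i).2 hs ?_ hX hX0 hXr
      intro φ M hφ hc
      refine hr i φ ⟨M, hφ⟩ fun ψ hψ => ?_
      obtain ⟨N, hN⟩ := hψ
      exact hc ψ N hN
    · exact Pool.Agent.Q43.GH.hasPcs_of_cm (hper i).1 (hper i).2
        (realC_of (hper i).1 (hper i).2 (hr i)) Φ hΦ ((only_iff Φ).1 hlf) u hsp
  have hind : Indep (DZ (bigD ℂ Z)) V.z := by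
    rcases hV with ⟨r, hr3, hrk, w, u, W, Q, φ, j, hQ, hbr, hj, hz, hsm⟩ | h
    · obtain ⟨l, hl⟩ := exists_left j hj
      refine Pool.Agent.Q43.GN.indep_sub j l hl hz ?_
      refine Pool.Agent.Q43.GM.indep_prod Z (fun i => (hper i).1) (fun i => (hper i).2) hp hr3
        (fun i M hM hM0 => hrk i M ?_ hM0) (Pool.Agent.Q43.GN.isPol_of hQ)
        (Pool.Agent.Q43.GN.isRep_of W φ hbr) (fun σ => ?_) ?_ (Pool.Agent.Q43.GM.EW_sq W)
        (Pool.Agent.Q43.GM.EW_z W) (Pool.Agent.Q43.GM.EW_g W) (Pool.Agent.Q43.GM.EW_cm W)
        (Pool.Agent.Q43.GM.small_of hQ (by omega) fun d => (hsm d).imp id fun h k hk =>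
          h k _ hk fun x hx => hx)
      · refine Submodule.span_mono ?_ hM
        rintro _ ⟨P, hP, rfl⟩
        exact ⟨_, (isEndo_iff P).1 hP, rfl⟩
      · ext i j
        by_cases hij : i = j
        · subst hij
          simp [Pool.Agent.Q43.GN.grM]
        · simp [Pool.Agent.Q43.GN.grM, hij]
      · exact (Pool.Agent.Q43.GN.grM_comm W W.z).2 W.graded
    · exact (polOf (bigD_symm fun i => (hper i).1)
        (imM_bigD_posDef Z fun i => (hper i).2)).indep_cm
        (simp_prod Z (fun i => (hper i).1) (fun i => (hper i).2) hp) h
  exact ⟨fun i => (hper i).1, fun i => (hper i).2, hp, hind⟩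

/-- **The noncommutative variational Hodge conjecture for abelian schemes times families with small
Hodge numbers.** Let `Z i b`, `b` in `B`, be period matrices (repetitions among the `Z i` are allowed) and
`Y b` the cohomologies of a family of varieties. Suppose that for a generic point `t` (`IsGenericPoint`)
the pair `Z i t`, `Y t` is good (`IsGoodPair`). Then

1. flat classes on the family of the products which are Hodge classes on all members are sums of products
   of flat classes which on all members are combinations of products of divisor classes, and Hodge classes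
   on all members of `Y`;
2. if the variational Hodge conjecture holds for the family `Y`, the noncommutative variational Hodge
   conjecture holds for the family of the products, for every system of algebraic classes. -/
theorem result {B : Type} {n v : ℕ} {d : Fin n → ℕ}
    (Z : ∀ i, B → Matrix (Fin (d i)) (Fin (d i)) ℂ)
    (hZ : ∀ i b, (Z i b).transpose = Z i b ∧ ((Z i b).map Complex.im).PosDef)
    (Y : B → Coh v) (t : B) (ht : IsGenericPoint (fun b => perProd fun i => Z i b) t)
    (hgood : IsGoodPair (fun i => Z i t) (Y t)) :
    HodgeClassesAreProducts (fun b => perProd fun i => Z i b) Y ∧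
    ∀ C : CycleSystem (fun b => perProd fun i => Z i b) v,
      Variational (fun b => IsHodgeOn (Y b)) C.algY →
        NCVariational (fun b => IsHodgeOnProduct (perProd fun i => Z i b) (Y b)) C.alg := by
  have hfree : Pool.Agent.Y91.PS.IsFree (fun i => Z i t) (Y t) :=
    isFree_of (fun i => hZ i t) hgood
  refine ⟨Pool.Agent.Q43.VH.products hfree (fun b i => (hZ i b).2) ht, fun C hC P hP hPa x hx hh b₀ hb₀ b => ?_⟩
  obtain ⟨y, hy, rfl⟩ := hb₀
  exact ⟨_, Pool.Agent.Q43.VH.variational hfree (fun b i => (hZ i b).2) ht C hC _ hh b₀
    (hPa b₀ y hy) b, hx⟩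

end Pool.Agent.Results.MP_298761_ag.TimesSmallHodgeNumbers
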